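import Pool.Agent.W475.BG.Stm
import Pool.Agent.W916.BH.Nz

set_option autoImplicit false
set_option maxHeartbeats 1000000

/-! The number of all zeros in a dyadic block, degree `d`. -/

namespace Pool.Agent.W605.BG

open Complex MeasureTheory Filter Topology
open Pool.Agent.W475.BG
open Pool.Agent.W475.BH (nz PP Bx ell Vh Gk)
open Pool.Agent.W916.BH (Wd nz_split nz_windows nz_affine nz_empty)

/-- scaling of the tall windows -/
theorem Wd_scaleH (X H t l : ℝ) (hl : 0 < l) :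
    (fun z : ℂ => I * t + (l : ℂ) * z) '' {z | |z.re| ≤ X ∧ 0 < z.im ∧ z.im ≤ H} =
      Wd (-(X * l)) (X * l) t (t + H * l) := by
  ext w
  simp only [Set.mem_image, Set.mem_ofPred_eq, Wd]
  constructor
  · rintro ⟨z, ⟨h1, h3, h4⟩, rfl⟩
    have e1 : (I * t + (l : ℂ) * z).re = l * z.re := by simp
    have e2 : (I * t + (l : ℂ) * z).im = t + l * z.im := by simp
    rw [e1, e2]
    obtain ⟨h5, h6⟩ := abs_le.1 h1
    refine ⟨by nlinarith, by nlinarith, by nlinarith, by nlinarith⟩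
  · rintro ⟨h1, h2, h3, h4⟩
    refine ⟨⟨w.re / l, (w.im - t) / l⟩, ⟨?_, ?_, ?_⟩, ?_⟩
    · show |w.re / l| ≤ X
      rw [abs_le]
      constructor
      · rw [le_div_iff₀ hl]; linarith
      · rw [div_le_iff₀ hl]; exact h2
    · show 0 < (w.im - t) / l
      exact div_pos (by linarith) hl
    · show (w.im - t) / l ≤ H
      rw [div_le_iff₀ hl]; linarith
    · apply Complex.ext
      · simp
        field_simp
      · simp
        field_simp
        ring

theorem cna (D : Dat) (hD : Ok D) (hY : S_SYM D) (hS : S_STIR D) (hC : S_CAT) (hW : S_WIN D)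
    (hR : S_CRU D) : S_CNA D := by
  classical
  intro κ hκ
  have hd1 : (1 : ℝ) ≤ (D.d : ℝ) := by exact_mod_cast hD.hd
  have hd0 : (0 : ℝ) < (D.d : ℝ) := by linarith
  obtain ⟨C, hC0, hcat⟩ := hC (D.d * κ) (by positivity)
  obtain ⟨Cr, Tc, hCr, _, hcru⟩ := hR κ hκ
  obtain ⟨hdf, _, _⟩ := hY κ hκ
  obtain ⟨_, Ts, _, _, hstir⟩ := hS
  rw [Metric.tendsto_atTop]
  intro ε hε
  obtain ⟨H, hH⟩ : ∃ H : ℝ, H = max 1 (4 * (C * D.d) / ε) := ⟨_, rfl⟩
  have hH1 : 1 ≤ H := by rw [hH]; exact le_max_left _ _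
  have hH0 : 0 < H := by linarith
  have hH2 : C * D.d / H ≤ ε / 4 := by
    have h1 : 4 * (C * D.d) / ε ≤ H := by rw [hH]; exact le_max_right _ _
    rw [div_le_iff₀ hε] at h1
    rw [div_le_iff₀ hH0]
    linarith
  obtain ⟨δ, hδ, hcatd⟩ := hcat H hH1
  obtain ⟨m, a, b, ω, Tw, _, _, _, hwin⟩ := hW κ (D.d * δ) H hκ (by positivity) hH1
  obtain ⟨K, hK⟩ : ∃ K : ℕ, H ≤ K := exists_nat_ge H
  obtain ⟨E, hE⟩ : ∃ E : ℝ, E = D.d / (2 * Real.pi) := ⟨_, rfl⟩
  have hpi := Real.pi_pos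
  have hE0 : 0 ≤ E := by rw [hE]; positivity
  rw [← hE]
  obtain ⟨B, hB⟩ : ∃ B : ℝ, B = K * Cr + H * E := ⟨_, rfl⟩
  have hB0 : 0 ≤ B := by rw [hB]; positivity
  have hlit : Tendsto (fun T : ℝ => Real.log T / T) atTop (𝓝 0) := by
    have := Real.isLittleO_log_id_atTop.tendsto_div_nhds_zero
    simpa using this
  have hev : ∀ᶠ T : ℝ in atTop, Tc ≤ T ∧ Ts ≤ T ∧ Tw ≤ T ∧ 2 ≤ T ∧
      B * (Real.log T / T) ≤ ε / 4 := by
    refine (eventually_ge_atTop _).and ((eventually_ge_atTop _).and ((eventually_ge_atTop _).and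
      ((eventually_ge_atTop _).and ?_)))
    have : Tendsto (fun T : ℝ => B * (Real.log T / T)) atTop (𝓝 (B * 0)) :=
      hlit.const_mul _
    rw [mul_zero] at this
    exact (this.eventually (gt_mem_nhds (show (0 : ℝ) < ε / 4 by positivity))).mono
      (fun T h => h.le)
  obtain ⟨T0, hT0⟩ := eventually_atTop.1 hev
  refine ⟨T0, fun T hT => ?_⟩
  obtain ⟨c1, c2, c3, c5, c6⟩ := hT0 T hT
  have hTpos : 0 < T := by linarith
  obtain ⟨l, hl⟩ : ∃ l : ℝ, l = Real.log T := ⟨_, rfl⟩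
  have hlpos : 0 < l := by rw [hl]; exact Real.log_pos (by linarith)
  obtain ⟨h, hh⟩ : ∃ h : ℝ, h = H * l := ⟨_, rfl⟩
  have hhpos : 0 < h := by rw [hh]; positivity
  obtain ⟨J, hJ⟩ : ∃ J : ℕ, J = ⌊T / h⌋₊ := ⟨_, rfl⟩
  have hJ1 : (J : ℝ) * h ≤ T := by
    have : (J : ℝ) ≤ T / h := by rw [hJ]; exact Nat.floor_le (by positivity)
    rwa [le_div_iff₀ hhpos] at this
  have hJ2 : T < ((J : ℝ) + 1) * h := by
    have : T / h < (J : ℝ) + 1 := by rw [hJ]; exact Nat.lt_floor_add_one _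
    rwa [div_lt_iff₀ hhpos] at this
  -- the function is not zero
  have hnz : XK D κ (I * T + (Real.log T : ℂ) * ((D.d * κ + 1 : ℝ) : ℂ)) ≠ 0 := by
    have hre : (((D.d * κ + 1 : ℝ) : ℂ)).re = D.d * κ + 1 := Complex.ofReal_re _
    have him : (((D.d * κ + 1 : ℝ) : ℂ)).im = 0 := Complex.ofReal_im _
    have hdk : 0 < D.d * κ + 1 := by positivity
    have h1 := (hwin T T c3 le_rfl (by linarith)).2.1 ((D.d * κ + 1 : ℝ) : ℂ)
      (by rw [hre, abs_of_pos hdk]; linarith) (by rw [hre, abs_of_pos hdk]; linarith)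
      (by rw [him]; norm_num) (by rw [him]; linarith)
    have hHp : 0 < ‖HH D (I * T)‖ := norm_pos_iff.2 (hstir T c2).1
    have h2 : 0 < ‖XK D κ (I * T + (Real.log T : ℂ) * ((D.d * κ + 1 : ℝ) : ℂ))‖ :=
      lt_of_lt_of_le (mul_pos hHp (Real.exp_pos _)) h1
    exact norm_pos_iff.1 h2
  -- the numbers
  obtain ⟨A, hA⟩ : ∃ A : ℝ, A = (D.d * κ + 1) * l := ⟨_, rfl⟩
  obtain ⟨nj, hnj⟩ : ∃ nj : ℕ → ℝ, ∀ j, nj j =
    (nz (XK D κ) (Wd (-A) A (T + j * h) (T + j * h + h)) : ℝ) := ⟨_, fun _ => rfl⟩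
  obtain ⟨nl, hnl⟩ : ∃ nl : ℝ, nl =
    (nz (XK D κ) (Wd (-A) A (T + J * h) (2 * T)) : ℝ) := ⟨_, rfl⟩
  obtain ⟨nt, hnt⟩ : ∃ nt : ℝ, nt = (nz (XK D κ) (Wd (-A) A T (2 * T)) : ℝ) := ⟨_, rfl⟩
  have hJh0 : (0 : ℝ) ≤ J * h := by positivity
  have htot : nt = ∑ j ∈ Finset.range J, nj j + nl := by
    rw [hnt, hnl, nz_split hdf hnz _ _ T (T + J * h) (2 * T) (by linarith) (by linarith),
      nz_windows hdf hnz _ _ T h hhpos.le J]
    push_cast
    congr 1
    exact Finset.sum_congr rfl (fun j _ => (hnj j).symm)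
  have hcr : ∀ t0 t1 : ℝ, T ≤ t0 → t0 ≤ 2 * T → t1 ≤ t0 + 2 * l →
      (nz (XK D κ) (Wd (-A) A t0 t1) : ℝ) ≤ Cr * l ^ 2 := by
    intro t0 t1 g1 g2 g3
    rw [hl]
    refine hcru T t0 c1 g1 g2 _ ?_
    rintro z ⟨k1, k2, k3, k4⟩
    rw [← hl]
    refine ⟨?_, k3.le, k4.trans g3⟩
    rw [← hA, abs_le]
    exact ⟨k1, k2⟩
  have hCl : 0 ≤ Cr * l ^ 2 := by positivity
  have hcr2 : ∀ (k : ℕ) (t0 : ℝ), T ≤ t0 → 2 * T ≤ t0 + k * l →
      (nz (XK D κ) (Wd (-A) A t0 (2 * T)) : ℝ) ≤ k * (Cr * l ^ 2) := by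
    intro k
    induction k with
    | zero =>
      intro t0 g1 g2
      have h1 : Wd (-A) A t0 (2 * T) = ∅ := by
        ext z
        simp only [Wd, Set.mem_ofPred_eq, Set.mem_empty_iff_false, iff_false]
        rintro ⟨_, _, h, h'⟩
        simp at g2
        linarith
      rw [h1, nz_empty]
      simp
    | succ k ih =>
      intro t0 g1 g2
      push_cast at g2 ⊢
      have hk0 : 0 ≤ (k : ℝ) * (Cr * l ^ 2) := by positivity
      rcases le_or_gt (2 * T) (t0 + l) with g3 | g3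
      · rcases le_or_gt t0 (2 * T) with g4 | g4
        · have h1 := hcr t0 (2 * T) g1 g4 (by linarith)
          linarith
        · have h1 : Wd (-A) A t0 (2 * T) = ∅ := by
            ext z
            simp only [Wd, Set.mem_ofPred_eq, Set.mem_empty_iff_false, iff_false]
            rintro ⟨_, _, h, h'⟩
            linarith
          rw [h1, nz_empty]
          push_cast
          positivity
      · have h1 := hcr t0 (t0 + l) g1 (by linarith) (by linarith)
        have h2 := ih (t0 + l) (by linarith) (by linarith)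
        rw [nz_split hdf hnz _ _ t0 (t0 + l) (2 * T) (by linarith) g3.le]
        push_cast
        linarith
  have hnlC : nl ≤ K * (Cr * l ^ 2) := by
    rw [hnl]
    refine hcr2 K (T + J * h) (by linarith) ?_
    have h1 : h ≤ K * l := by rw [hh]; gcongr
    linarith
  have hnl0 : 0 ≤ nl := by rw [hnl]; positivity
  have hgood : ∀ j ∈ Finset.range J, |nj j - l ^ 2 * H * E| ≤ C * (D.d * l ^ 2) := by
    intro j hj
    obtain ⟨t0, ht0⟩ : ∃ t0 : ℝ, t0 = T + j * h := ⟨_, rfl⟩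
    have h6 : (0 : ℝ) ≤ j * h := by positivity
    have h7 : (j : ℝ) * h ≤ J * h := by
      have : (j : ℝ) ≤ J := by exact_mod_cast (Finset.mem_range.1 hj).le
      gcongr
    have hT0a : T ≤ t0 := by rw [ht0]; linarith
    have hT0b : t0 ≤ 2 * T := by rw [ht0]; linarith
    obtain ⟨w1, w2, _⟩ := hwin T t0 c3 hT0a hT0b
    rw [← hl] at w1 w2
    have hHH : HH D (I * t0) ≠ 0 := (hstir t0 (by linarith)).1
    have hHp : 0 < ‖HH D (I * t0)‖ := norm_pos_iff.2 hHH
    have hdf' : Differentiable ℂ (fun z : ℂ => XK D κ (I * t0 + (l : ℂ) * z) / HH D (I * t0)) := by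
      have hg' : Differentiable ℂ (fun z : ℂ => I * t0 + (l : ℂ) * z) := by fun_prop
      exact (hdf.comp hg').div_const _
    have h7 := hcatd (D.d * l ^ 2)
      (fun z : ℂ => XK D κ (I * t0 + (l : ℂ) * z) / HH D (I * t0))
      (by positivity) hdf' ?_ ?_
    · rw [nz_affine hdf (I * t0) (by exact_mod_cast hlpos.ne') hHH,
        Wd_scaleH (D.d * κ + 1) H t0 l hlpos, ← hA, ← hh] at h7
      rw [hnj, ← ht0]
      have e1 : D.d * l ^ 2 * H / (2 * Real.pi) = l ^ 2 * H * E := by rw [hE]; ring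
      rw [e1] at h7
      exact h7
    · intro z z1 z2 z3
      show ‖XK D κ (I * t0 + (l : ℂ) * z) / HH D (I * t0)‖ ≤ _
      rw [norm_div, div_le_iff₀ hHp, mul_comm (Real.exp _)]
      have e1 : (D.d : ℝ) * l ^ 2 * (Vh (D.d * κ) z.re + δ) =
          l ^ 2 * (Vd D.d κ z.re + D.d * δ) := by unfold Vd; ring
      rw [e1]
      exact w1 z z1 z2 z3
    · intro z z0 z1 z2 z3
      show _ ≤ ‖XK D κ (I * t0 + (l : ℂ) * z) / HH D (I * t0)‖
      rw [norm_div, le_div_iff₀ hHp, mul_comm (Real.exp _)]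
      have e1 : (D.d : ℝ) * l ^ 2 * (Vh (D.d * κ) z.re - δ) =
          l ^ 2 * (Vd D.d κ z.re - D.d * δ) := by unfold Vd; ring
      rw [e1]
      exact w2 z z0 z1 z2 z3
  -- the sum over the windows
  have hl2 : 0 < l ^ 2 := by positivity
  have hsum : |∑ j ∈ Finset.range J, nj j - J * (l ^ 2 * H * E)| ≤ J * (C * (D.d * l ^ 2)) := by
    have e1 : ∑ j ∈ Finset.range J, nj j - J * (l ^ 2 * H * E) =
        ∑ j ∈ Finset.range J, (nj j - l ^ 2 * H * E) := by
      rw [Finset.sum_sub_distrib, Finset.sum_const, Finset.card_range, nsmul_eq_mul]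
    rw [e1]
    calc |∑ j ∈ Finset.range J, (nj j - l ^ 2 * H * E)| ≤
        ∑ j ∈ Finset.range J, |nj j - l ^ 2 * H * E| := Finset.abs_sum_le_sum_abs _ _
      _ ≤ ∑ j ∈ Finset.range J, C * (D.d * l ^ 2) := Finset.sum_le_sum hgood
      _ = J * (C * (D.d * l ^ 2)) := by
          rw [Finset.sum_const, Finset.card_range, nsmul_eq_mul]
  have hfin : |nt - T * l * E| ≤ T * l * (C * D.d / H) + B * l ^ 2 := by
    have e1 : nt - T * l * E = (∑ j ∈ Finset.range J, nj j - J * (l ^ 2 * H * E)) + nl -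
        (T - J * h) * (l * E) := by rw [htot, hh]; ring
    rw [e1]
    have e2 : |(∑ j ∈ Finset.range J, nj j - J * (l ^ 2 * H * E)) + nl -
        (T - J * h) * (l * E)| ≤
        |∑ j ∈ Finset.range J, nj j - J * (l ^ 2 * H * E)| + nl + (T - J * h) * (l * E) := by
      have h6 : 0 ≤ (T - J * h) * (l * E) := mul_nonneg (by linarith) (by positivity)
      refine (abs_sub _ _).trans ?_
      rw [abs_of_nonneg h6]
      have := abs_add_le (∑ j ∈ Finset.range J, nj j - J * (l ^ 2 * H * E)) nl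
      rw [abs_of_nonneg hnl0] at this
      linarith
    have e3 : (T - J * h) * (l * E) ≤ h * (l * E) := by
      apply mul_le_mul_of_nonneg_right _ (by positivity)
      linarith
    have e4 : (J : ℝ) * (C * (D.d * l ^ 2)) ≤ T * l * (C * D.d / H) := by
      have : (J : ℝ) * (C * (D.d * l ^ 2)) = (J * h) * (l * (C * D.d / H)) := by
        rw [hh]; field_simp
      rw [this]
      have h6 : (J * h) * (l * (C * D.d / H)) ≤ T * (l * (C * D.d / H)) := by gcongr
      linarith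
    have e5 : B * l ^ 2 = K * (Cr * l ^ 2) + h * (l * E) := by rw [hB, hh]; ring
    rw [e5]
    linarith
  -- conclusion
  have hset : {z : ℂ | |z.re| ≤ (D.d * κ + 1) * Real.log T ∧ T < z.im ∧
      z.im ≤ 2 * T} = Wd (-A) A T (2 * T) := by
    rw [hA, hl]
    ext z
    simp only [Wd, Set.mem_ofPred_eq, abs_le, and_assoc]
  rw [hset, ← hnt, ← hl, Real.dist_eq]
  have hTl : 0 < T * l := by positivity
  have e6 : nt / (T * l) - E = (nt - T * l * E) / (T * l) := by
    field_simp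
  rw [e6, abs_div, abs_of_pos hTl, div_lt_iff₀ hTl]
  refine lt_of_le_of_lt hfin ?_
  have e7 : B * l ^ 2 ≤ ε / 4 * (T * l) := by
    have h6 : B * (l / T) ≤ ε / 4 := by rw [hl]; exact c6
    have h7 : B * l ≤ ε / 4 * T := by
      have : B * (l / T) = B * l / T := by ring
      rw [this, div_le_iff₀ hTpos] at h6
      exact h6
    nlinarith
  have e8 : T * l * (C * D.d / H) ≤ T * l * (ε / 4) := by gcongr
  have e10 := mul_pos hε hTl
  linarith

end Pool.Agent.W605.BG
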